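import Pool.Agent.Work.MP_d0224f_ag.Defs

/-!
# Graded rings covered by finitely many graded rings; Gordan's lemma
-/

namespace Pool.TF

open Finset

section Fam

variable {k F : Type} [Field k] [Field F] [Algebra k F]

theorem Fam.single_mem {W : Type} [AddCommMonoid W] (𝓖 : Fam k F W) {w : W} {f : F}
    (hf : f ∈ 𝓖.G w) : AddMonoidAlgebra.single w f ∈ 𝓖.alg := by
  classical
  intro v
  rw [AddMonoidAlgebra.coeff_single, Finsupp.single_apply]
  split_ifs with h
  · rw [← h]; exact hf
  · exact Submodule.zero_mem _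

/-- An element of the graded ring is a sum of homogeneous elements. -/
theorem Fam.mem_of_single {W : Type} [AddCommMonoid W] (𝓖 : Fam k F W)
    (B : Subalgebra k (AddMonoidAlgebra F W))
    (h : ∀ w f, f ∈ 𝓖.G w → f ≠ 0 → AddMonoidAlgebra.single w f ∈ B) : 𝓖.alg ≤ B := by
  classical
  intro x hx
  rw [← AddMonoidAlgebra.sum_coeff_single x]
  refine Subalgebra.sum_mem _ fun w hw => h w _ (hx w) ?_
  exact Finsupp.mem_support_iff.1 hw

theorem Fam.map_le {W W' : Type} [AddCommMonoid W] [AddCommMonoid W'] (𝓖 : Fam k F W)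
    (𝓖' : Fam k F W') (φ : W' →+ W) (hle : ∀ w' f, f ∈ 𝓖'.G w' → f ∈ 𝓖.G (φ w')) :
    (𝓖'.alg).map (AddMonoidAlgebra.mapDomainAlgHom k F φ) ≤ 𝓖.alg := by
  classical
  rw [Subalgebra.map_le]
  refine 𝓖'.mem_of_single _ fun w f hf _ => ?_
  show AddMonoidAlgebra.mapDomainAlgHom k F φ (AddMonoidAlgebra.single w f) ∈ 𝓖.alg
  have : AddMonoidAlgebra.mapDomainAlgHom k F φ (AddMonoidAlgebra.single w f)
      = AddMonoidAlgebra.single (φ w) f := by
    simp
  rw [this]
  exact 𝓖.single_mem (hle w f hf)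

/-- A finite supremum of finitely generated subalgebras is finitely generated. -/
theorem fg_iSup {A : Type} [CommRing A] [Algebra k A] {I : Type} [Finite I]
    (S : I → Subalgebra k A) (h : ∀ i, (S i).FG) : (⨆ i, S i).FG := by
  classical
  cases nonempty_fintype I
  rw [← Finset.sup_univ_eq_iSup]
  induction (Finset.univ : Finset I) using Finset.induction_on with
  | empty => simpa using Subalgebra.fg_bot
  | insert a s ha ih => rw [Finset.sup_insert]; exact (h a).sup ih

/-- The main criterion: the graded ring is covered by finitely many finitely generated ones. -/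
theorem Fam.fg_of_cover {W : Type} [AddCommMonoid W] (𝓖 : Fam k F W) {I : Type} [Finite I]
    (W' : I → Type) [∀ i, AddCommMonoid (W' i)] (𝓖' : ∀ i, Fam k F (W' i))
    (φ : ∀ i, W' i →+ W) (hle : ∀ i w' f, f ∈ (𝓖' i).G w' → f ∈ 𝓖.G (φ i w'))
    (hsurj : ∀ w f, f ∈ 𝓖.G w → f ≠ 0 → ∃ i w', φ i w' = w ∧ f ∈ (𝓖' i).G w')
    (hfg : ∀ i, ((𝓖' i).alg).FG) : 𝓖.alg.FG := by
  classical
  have key : 𝓖.alg = ⨆ i, ((𝓖' i).alg).map (AddMonoidAlgebra.mapDomainAlgHom k F (φ i)) := by
    apply le_antisymm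
    · refine 𝓖.mem_of_single _ fun w f hf hne => ?_
      obtain ⟨i, w', rfl, hf'⟩ := hsurj w f hf hne
      refine (le_iSup (fun i => ((𝓖' i).alg).map (AddMonoidAlgebra.mapDomainAlgHom k F (φ i))) i) ?_
      refine ⟨AddMonoidAlgebra.single w' f, (𝓖' i).single_mem hf', ?_⟩
      show AddMonoidAlgebra.mapDomainAlgHom k F (φ i) (AddMonoidAlgebra.single w' f) = _
      simp
    · exact iSup_le fun i => 𝓖.map_le (𝓖' i) (φ i) (hle i)
  rw [key]
  exact fg_iSup _ fun i => (hfg i).map _

end Fam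

section Gordan

/-- Common denominator of finitely many rational numbers. -/
theorem exists_den {ι : Type} (s : Finset ι) (q : ι → ℚ) :
    ∃ N : ℕ, 0 < N ∧ ∀ i ∈ s, ∃ z : ℤ, (z : ℚ) = N * q i := by
  classical
  refine ⟨∏ i ∈ s, (q i).den, Finset.prod_pos fun i _ => (q i).den_pos, fun i hi => ?_⟩
  refine ⟨(∏ j ∈ s.erase i, ((q j).den : ℤ)) * (q i).num, ?_⟩
  rw [← Finset.mul_prod_erase s _ hi]
  push_cast
  have h : ((q i).den : ℚ) * q i = (q i).num := by
    rw [mul_comm]; exact Rat.mul_den_eq_num (q i)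
  calc (∏ j ∈ s.erase i, ((q j).den : ℚ)) * ((q i).num : ℚ)
      = (∏ j ∈ s.erase i, ((q j).den : ℚ)) * (((q i).den : ℚ) * q i) := by rw [h]
    _ = ((q i).den : ℚ) * (∏ j ∈ s.erase i, ((q j).den : ℚ)) * q i := by ring

/-- A homomorphism from a finitely generated abelian group to the rationals has bounded
denominators. -/
theorem exists_int_hom {W : Type} [AddCommGroup W] [Module.Finite ℤ W] (h : W →+ ℚ) :
    ∃ N : ℕ, 0 < N ∧ ∃ h' : W →+ ℤ, ∀ w, (h' w : ℚ) = N * h w := by
  classical
  obtain ⟨s, hs⟩ := (Module.finite_def.1 (inferInstance : Module.Finite ℤ W))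
  obtain ⟨N, hN, hz⟩ := exists_den s (fun w => h w)
  have key : ∀ w : W, ∃ z : ℤ, (z : ℚ) = N * h w := by
    intro w
    have hw : w ∈ Submodule.span ℤ (s : Set W) := by rw [hs]; trivial
    induction hw using Submodule.span_induction with
    | mem x hx => exact hz x hx
    | zero => exact ⟨0, by simp⟩
    | add x y _ _ hx hy =>
      obtain ⟨a, ha⟩ := hx
      obtain ⟨b, hb⟩ := hy
      exact ⟨a + b, by push_cast; rw [ha, hb, map_add]; ring⟩
    | smul c x _ hx =>
      obtain ⟨a, ha⟩ := hx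
      exact ⟨c * a, by push_cast; rw [ha, map_zsmul, zsmul_eq_mul]; ring⟩
  choose g hg using key
  refine ⟨N, hN, ⟨⟨g, ?_⟩, ?_⟩, hg⟩
  · have := hg 0
    rw [map_zero, mul_zero] at this
    exact_mod_cast this
  · intro x y
    have h1 := hg (x + y)
    rw [map_add, mul_add, ← hg x, ← hg y] at h1
    exact_mod_cast h1

/-- **Gordan's lemma** for a finitely generated abelian group `W` and finitely many
homomorphisms to the rationals. -/
theorem gordan {W : Type} [AddCommGroup W] [Module.Finite ℤ W] {E : Type} [Finite E]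
    (h : E → (W →+ ℚ)) :
    ∃ (s : ℕ) (w : Fin s → W), (∀ e j, 0 ≤ h e (w j)) ∧
      ∀ x : W, (∀ e, 0 ≤ h e x) → ∃ a : Fin s → ℕ, x = ∑ j, a j • w j := by
  classical
  cases nonempty_fintype E
  choose N hN h' hh' using fun e => exists_int_hom (h e)
  -- generators of `W` as a monoid
  have : AddGroup.FG W := Module.Finite.iff_addGroup_fg.1 inferInstance
  have : AddMonoid.FG W := AddGroup.fg_iff_addMonoid_fg.1 inferInstance
  obtain ⟨S, hS⟩ := (AddMonoid.fg_def.1 (inferInstance : AddMonoid.FG W))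
  -- the monoid of pairs
  let f : ((S → ℕ) × (E → ℕ)) →+ (E → ℤ) :=
    { toFun := fun x e => h' e (∑ g : S, x.1 g • (g : W))
      map_zero' := by funext e; simp
      map_add' := by
        intro x y; funext e
        simp [add_smul, Finset.sum_add_distrib] }
  let g : ((S → ℕ) × (E → ℕ)) →+ (E → ℤ) :=
    { toFun := fun x e => (x.2 e : ℤ)
      map_zero' := by funext e; simp
      map_add' := by intro x y; funext e; simp }
  have hfg : (f.eqLocusM g).FG := AddSubmonoid.fg_eqLocusM f g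
  let π : ((S → ℕ) × (E → ℕ)) →+ W :=
    { toFun := fun x => ∑ g : S, x.1 g • (g : W)
      map_zero' := by simp
      map_add' := by intro x y; simp [add_smul, Finset.sum_add_distrib] }
  obtain ⟨T, hT⟩ := hfg.map π
  refine ⟨T.card, fun j => (T.equivFin.symm j : W), ?_, ?_⟩
  · intro e j
    have hj : ((T.equivFin.symm j : T) : W) ∈ (f.eqLocusM g).map π := by
      rw [← hT]; exact AddSubmonoid.subset_closure (T.equivFin.symm j).2
    obtain ⟨x, hx, hxj⟩ := hj
    show 0 ≤ h e ((T.equivFin.symm j : T) : W)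
    rw [← hxj]
    have h1 : f x = g x := hx
    have h2 : h' e (π x) = (x.2 e : ℤ) := congrFun h1 e
    have h3 := hh' e (π x)
    rw [h2] at h3
    have h4 : (0 : ℚ) ≤ N e * h e (π x) := by rw [← h3]; exact_mod_cast Int.natCast_nonneg _
    have h5 : (0 : ℚ) < N e := by exact_mod_cast hN e
    exact nonneg_of_mul_nonneg_right h4 h5
  · intro x hx
    have hx1 : x ∈ AddSubmonoid.closure (S : Set W) := by rw [hS]; trivial
    obtain ⟨a, ha⟩ := AddSubmonoid.mem_closure_finset'.1 hx1
    have hxm : x ∈ (f.eqLocusM g).map π := by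
      refine ⟨(a, fun e => (h' e x).toNat), ?_, ha.symm⟩
      show f _ = g _
      funext e
      show h' e (∑ g : S, a g • (g : W)) = (((h' e x).toNat : ℕ) : ℤ)
      rw [← ha, Int.toNat_of_nonneg]
      have h3 := hh' e x
      have : (0 : ℚ) ≤ (h' e x : ℚ) := by
        rw [h3]; exact mul_nonneg (Nat.cast_nonneg _) (hx e)
      exact_mod_cast this
    rw [← hT] at hxm
    obtain ⟨b, hb⟩ := AddSubmonoid.mem_closure_finset'.1 hxm
    refine ⟨fun j => b (T.equivFin.symm j), ?_⟩
    rw [hb]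
    exact (Equiv.sum_comp T.equivFin.symm (fun t : T => b t • (t : W))).symm

end Gordan

end Pool.TF
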