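import Mathlib

/-!
# Fano varieties with torus action

Conventions. `k` is an algebraically closed field of characteristic `p > 0`, `X` a smooth projective
variety of dimension `n` over `k` with an effective action (trivial scheme-theoretic kernel) of a
torus of rank `r`, `M = Fin r → ℤ` its character lattice, `N = Fin r → ℤ` the dual lattice, `F = K(X)^T` the field of
invariant rational functions, of transcendence degree `n - r`. We fix semi-invariant rational
functions `χ^u` of weight `u` with `χ^(u+u') = χ^u χ^(u')`. Every semi-invariant rational function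
of weight `u` is `f χ^u` with `f ∈ F`.

`V` is the set of divisorial valuations `P` of `F / k`, `ν.ord P` the (normalised) valuation.
For `P ∈ V` and `v ∈ N_ℚ = Fin r → ℚ` let `(P, v)` be the `T`-invariant valuation of `K(X)` with
`(P, v) (f χ^u) = ord_P f + ⟨u, v⟩`; if `μ` is the least positive integer with `μ v ∈ N`, then
`μ (P, v)` is a normalised divisorial valuation. For `w ∈ N` let `wt_w` be the valuation
`wt_w (f χ^u) = ⟨u, w⟩`. Every `T`-invariant prime divisor of `X` has the valuation `wt_w`,
`w` primitive (horizontal divisors, finitely many), or `μ (P, v)` (vertical divisors).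
-/

namespace Pool.TF

open Finset

/-- A family of discrete valuations (written additively) of a field `F`, trivial on `k`. -/
structure Vals (k F V : Type) [Field k] [Field F] [Algebra k F] where
  /-- the valuations -/
  ord : V → AddValuation F (WithTop ℤ)
  /-- they are trivial on the constants -/
  const : ∀ P (c : k), c ≠ 0 → ord P (algebraMap k F c) = 0

section Fam

variable {k F : Type} [Field k] [Field F] [Algebra k F]

/-- A multiplicative family of `k`-subspaces of `F`, indexed by a monoid `W`. -/
structure Fam (k F W : Type) [Field k] [Field F] [Algebra k F] [AddCommMonoid W] where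
  /-- the space of degree `w` -/
  G : W → Submodule k F
  one : (1 : F) ∈ G 0
  mul : ∀ a b f g, f ∈ G a → g ∈ G b → f * g ∈ G (a + b)

/-- The graded ring: the direct sum of the `G w`, as a subalgebra of the group algebra `F[W]`. -/
noncomputable def Fam.alg {W : Type} [AddCommMonoid W] (𝓖 : Fam k F W) :
    Subalgebra k (AddMonoidAlgebra F W) where
  carrier := {x | ∀ w, x.coeff w ∈ 𝓖.G w}
  mul_mem' := by
    classical
    intro x y hx hy w
    rw [AddMonoidAlgebra.coeff_mul]
    refine Submodule.sum_mem _ fun a _ => Submodule.sum_mem _ fun b _ => ?_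
    show (if a + b = w then x.coeff a * y.coeff b else 0) ∈ 𝓖.G w
    split_ifs with h
    · rw [← h]; exact 𝓖.mul _ _ _ _ (hx a) (hy b)
    · exact Submodule.zero_mem _
  add_mem' := by
    intro x y hx hy w
    rw [AddMonoidAlgebra.coeff_add]
    exact Submodule.add_mem _ (hx w) (hy w)
  algebraMap_mem' := by
    classical
    intro c w
    have : algebraMap k (AddMonoidAlgebra F W) c = AddMonoidAlgebra.single 0 (algebraMap k F c) :=
      rfl
    rw [this, AddMonoidAlgebra.coeff_single, Finsupp.single_apply]
    split_ifs with h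
    · rw [← h, Algebra.algebraMap_eq_smul_one]
      exact Submodule.smul_mem _ _ 𝓖.one
    · exact Submodule.zero_mem _

end Fam

section Sections

variable {k F V T : Type} [Field k] [Field F] [Algebra k F]

/-- The functions `f` with `b` (unless `f = 0`) and `ord_(ov t) (f) + q t ≥ 0` for all `t`. -/
def Vals.cond (ν : Vals k F V) (ov : T → V) (b : Prop) (q : T → ℚ) : Submodule k F where
  carrier := {f | (f ≠ 0 → b) ∧ ∀ t (n : ℤ), ν.ord (ov t) f = (n : WithTop ℤ) → 0 ≤ (n : ℚ) + q t}
  add_mem' := by
    rintro f g ⟨hf1, hf2⟩ ⟨hg1, hg2⟩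
    refine ⟨fun h => ?_, fun t n hn => ?_⟩
    · by_cases hf : f = 0
      · subst hf
        exact hg1 (by simpa using h)
      · exact hf1 hf
    · have hmin := (ν.ord (ov t)).map_add f g
      rw [hn] at hmin
      rcases min_le_iff.1 hmin with h | h
      · obtain ⟨m, hm⟩ := WithTop.ne_top_iff_exists.1 (ne_top_of_le_ne_top WithTop.coe_ne_top h)
        have h1 := hf2 t m hm.symm
        rw [← hm] at h
        have h2 : m ≤ n := by exact_mod_cast h
        have h3 : (m : ℚ) ≤ n := by exact_mod_cast h2
        linarith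
      · obtain ⟨m, hm⟩ := WithTop.ne_top_iff_exists.1 (ne_top_of_le_ne_top WithTop.coe_ne_top h)
        have h1 := hg2 t m hm.symm
        rw [← hm] at h
        have h2 : m ≤ n := by exact_mod_cast h
        have h3 : (m : ℚ) ≤ n := by exact_mod_cast h2
        linarith
  zero_mem' := by
    refine ⟨fun h => absurd rfl h, fun t n hn => ?_⟩
    rw [(ν.ord (ov t)).map_zero] at hn
    exact absurd hn.symm WithTop.coe_ne_top
  smul_mem' := by
    rintro c f ⟨hf1, hf2⟩
    by_cases hc : c = 0
    · subst hc
      rw [zero_smul]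
      refine ⟨fun h => absurd rfl h, fun t n hn => ?_⟩
      rw [(ν.ord (ov t)).map_zero] at hn
      exact absurd hn.symm WithTop.coe_ne_top
    · refine ⟨fun h => hf1 fun h0 => h (by rw [h0, smul_zero]), fun t n hn => ?_⟩
      apply hf2 t n
      rw [Algebra.smul_def, (ν.ord (ov t)).map_mul, ν.const _ _ hc, zero_add] at hn
      exact hn

theorem Vals.mem_cond {ν : Vals k F V} {ov : T → V} {b : Prop} {q : T → ℚ} {f : F} :
    f ∈ ν.cond ov b q ↔ (f ≠ 0 → b) ∧
      ∀ t (n : ℤ), ν.ord (ov t) f = (n : WithTop ℤ) → 0 ≤ (n : ℚ) + q t := Iff.rfl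

theorem Vals.cond_mul (ν : Vals k F V) (ov : T → V) {b b' b'' : Prop} {q q' q'' : T → ℚ}
    (hb : b → b' → b'') (hq : ∀ t, q t + q' t ≤ q'' t) {f g : F} (hf : f ∈ ν.cond ov b q)
    (hg : g ∈ ν.cond ov b' q') : f * g ∈ ν.cond ov b'' q'' := by
  refine ⟨fun h => hb (hf.1 (left_ne_zero_of_mul h)) (hg.1 (right_ne_zero_of_mul h)),
    fun t n hn => ?_⟩
  rw [(ν.ord (ov t)).map_mul] at hn
  have h1 : ν.ord (ov t) f ≠ ⊤ := by
    intro h; rw [h, top_add] at hn; exact absurd hn.symm WithTop.coe_ne_top
  have h2 : ν.ord (ov t) g ≠ ⊤ := by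
    intro h; rw [h, add_top] at hn; exact absurd hn.symm WithTop.coe_ne_top
  obtain ⟨a, ha⟩ := WithTop.ne_top_iff_exists.1 h1
  obtain ⟨c, hc⟩ := WithTop.ne_top_iff_exists.1 h2
  have h3 := hf.2 t a ha.symm
  have h4 := hg.2 t c hc.symm
  rw [← ha, ← hc] at hn
  have h5 : a + c = n := by exact_mod_cast hn
  have h6 : (n : ℚ) = a + c := by rw [← h5]; push_cast; ring
  have h7 := hq t
  rw [h6]; linarith

theorem Vals.one_mem_cond (ν : Vals k F V) (ov : T → V) {b : Prop} {q : T → ℚ} (hb : b)
    (hq : ∀ t, 0 ≤ q t) : (1 : F) ∈ ν.cond ov b q := by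
  refine ⟨fun _ => hb, fun t n hn => ?_⟩
  rw [(ν.ord (ov t)).map_one] at hn
  have h1 : (0 : ℤ) = n := by exact_mod_cast hn
  rw [← h1]
  simpa using hq t

/-- The space `H^0(Y, D)` of a divisor `D` on the normal projective variety `Y` with function
field `F` and set of prime divisors `S` (for a rational divisor: of its round down). -/
def Vals.sec (ν : Vals k F V) (S : Set V) (D : V → ℚ) : Submodule k F :=
  ν.cond (fun P : S => (P : V)) True (fun P : S => D P)

/-- The family of the spaces `H^0(Y, a_1 D_1 + .. + a_s D_s)`. -/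
def Vals.secFam (ν : Vals k F V) (S : Set V) {s : ℕ} (D : Fin s → V → ℤ) :
    Fam k F (Fin s → ℕ) where
  G a := ν.sec S (fun P => ∑ i, (a i : ℚ) * (D i P : ℚ))
  one := ν.one_mem_cond _ trivial (by intro t; simp)
  mul := by
    intro a b f g hf hg
    refine ν.cond_mul _ (fun _ _ => trivial) (fun t => ?_) hf hg
    rw [← Finset.sum_add_distrib]
    refine Finset.sum_le_sum fun i _ => ?_
    simp [add_mul]

/-- All multisection rings of finitely many (integral) divisors of the variety with function field
`F` and prime divisors `S` are finitely generated `k`-algebras. -/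
def Vals.FinGen (ν : Vals k F V) (S : Set V) : Prop :=
  ∀ (s : ℕ) (D : Fin s → V → ℤ), (∀ i, {P | P ∈ S ∧ D i P ≠ 0}.Finite) → (ν.secFam S D).alg.FG

end Sections

/-- The pairing of `M` and `N_ℚ`. -/
def pr {r : ℕ} (u : Fin r → ℤ) (v : Fin r → ℚ) : ℚ := ∑ i, (u i : ℚ) * v i

section Data

variable {k F V : Type} [Field k] [Field F] [Algebra k F]

/-- The invariant prime divisors of a normal projective variety `X` with an effective action of a
torus of rank `r`, and the orders of an invariant rational form along them. -/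
structure TVar (ν : Vals k F V) (r : ℕ) where
  /-- the horizontal invariant prime divisors: those with infinite generic stabiliser -/
  H : Type
  finite_H : Finite H
  /-- the valuation of the horizontal divisor `ρ` is `wt_(ray ρ)` -/
  ray : H → Fin r → ℤ
  /-- the vertical invariant prime divisors of `X` -/
  T : Type
  /-- the valuation of the vertical divisor `t` is `mu t (ov t, vtx t)` -/
  ov : T → V
  vtx : T → Fin r → ℚ
  mu : T → ℕ
  mu_pos : ∀ t, 0 < mu t
  /-- `mu t` is the least positive integer with `mu t * vtx t ∈ N` -/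
  mu_int : ∀ t i, ∃ z : ℤ, (z : ℚ) = mu t * vtx t i
  mu_min : ∀ t (m : ℕ), 0 < m → (∀ i, ∃ z : ℤ, (z : ℚ) = m * vtx t i) → mu t ≤ m
  /-- almost every vertical divisor `t` has `vtx t = 0` (the functions `χ^u` have only finitely many
  zeros and poles) and is the only one over `ov t` (almost all fibres of a rational quotient map
  are irreducible, up to the horizontal divisors) -/
  almost : {t | ¬ (vtx t = 0 ∧ ∀ t', ov t' = ov t → t' = t)}.Finite
  /-- the order of a fixed nonzero rational form `η` of degree `n - r` of `F` along `P` -/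
  kap : V → ℤ

variable {ν : Vals k F V} {r : ℕ}

/-- `H^0(X, O_X(D))_u`: the `f ∈ F` such that `f χ^u` is a section of the invariant divisor `D`,
i.e. `ord_E (f χ^u) + D_E ≥ 0` for all invariant prime divisors `E`; for a vertical divisor `t`
this reads `mu t * (ord f + ⟨u, vtx t⟩) + D_t ≥ 0`. -/
def TVar.H0 (X : TVar ν r) (D : X.H ⊕ X.T → ℤ) (u : Fin r → ℤ) : Submodule k F :=
  ν.cond X.ov (∀ ρ, 0 ≤ pr u (fun i => (X.ray ρ i : ℚ)) + (D (Sum.inl ρ) : ℚ))
    (fun t => pr u (X.vtx t) + (D (Sum.inr t) : ℚ) / (X.mu t : ℚ))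

/-- The divisor of the invariant form `ω = dlog χ^(e_1) ∧ .. ∧ dlog χ^(e_r) ∧ η` of `X`: a simple
pole along the horizontal divisors, and `ord_t ω + 1 = mu t * (ord_(ov t) η + 1)` along the vertical
ones (also if `p` divides `mu t`). -/
def TVar.can (X : TVar ν r) : X.H ⊕ X.T → ℤ
  | Sum.inl _ => -1
  | Sum.inr t => X.mu t * (X.kap (X.ov t) + 1) - 1

/-- `H^0(X, - m K_X)_u`: the `f ∈ F` such that `f χ^u ω^(-m)` is a section of `- m K_X`. -/
def TVar.anti (X : TVar ν r) (m : ℕ) (u : Fin r → ℤ) : Submodule k F :=
  X.H0 (fun E => - (m : ℤ) * X.can E) u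

theorem TVar.H0_mul (X : TVar ν r) {D D' D'' : X.H ⊕ X.T → ℤ} {u u' : Fin r → ℤ}
    (hD : ∀ E, D'' E = D E + D' E) {f g : F} (hf : f ∈ X.H0 D u) (hg : g ∈ X.H0 D' u') :
    f * g ∈ X.H0 D'' (u + u') := by
  have hpr : ∀ v, pr (u + u') v = pr u v + pr u' v := by
    intro v
    simp only [pr, Pi.add_apply]
    rw [← Finset.sum_add_distrib]
    exact Finset.sum_congr rfl fun i _ => by push_cast; ring
  refine ν.cond_mul _ (fun h1 h2 ρ => ?_) (fun t => ?_) hf hg
  · rw [hD, hpr]; push_cast; linarith [h1 ρ, h2 ρ]
  · rw [hD, hpr]; push_cast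
    rw [add_div]
    apply le_of_eq; ring

/-- The multisection ring of finitely many invariant divisors `B_1, .., B_s` of `X`: the sum of the
spaces `H^0(X, a_1 B_1 + .. + a_s B_s)` over `a ∈ ℤ^s`, graded by `(a, u)`, `u ∈ M` the weight. -/
noncomputable def TVar.coxFam (X : TVar ν r) {s : ℕ} (B : Fin s → (X.H ⊕ X.T) →₀ ℤ) :
    Fam k F ((Fin s → ℤ) × (Fin r → ℤ)) where
  G w := X.H0 (fun E => ∑ i, w.1 i * B i E) w.2
  one := by
    refine ν.one_mem_cond _ (fun ρ => ?_) (fun t => ?_)
    · simp [pr]
    · simp [pr]
  mul := by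
    intro a b f g hf hg
    refine X.H0_mul (fun E => ?_) hf hg
    rw [← Finset.sum_add_distrib]
    refine Finset.sum_congr rfl fun i _ => ?_
    show (a.1 i + b.1 i) * B i E = _
    ring

/-- The dimensions `c` and characteristics `p > 0` for which the minimal model program used below
is published: dimension at most two, and dimension three if `p > 5`. -/
def Known (c p : ℕ) : Prop := c ≤ 2 ∨ (c = 3 ∧ 5 < p)

/-- Pairs `(Y, B)`: `Y` a normal projective variety over the algebraically closed field `k` of
characteristic `p > 0`, with function field `F`, of dimension `c`, and `B` a `ℚ`-divisor with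
`K_Y + B` `ℚ`-Cartier. -/
structure Models (ν : Vals k F V) (c p : ℕ) where
  Pair : Type
  /-- the prime divisors of `Y` -/
  divs : Pair → Set V
  /-- the log discrepancy of `P ∈ V` with respect to `(Y, B)`; `1 - ld y P` is the coefficient
  of `P` in `B` if `P` is a prime divisor of `Y` -/
  ld : Pair → V → ℚ
  /-- `Y` is `ℚ`-factorial -/
  QFact : Pair → Prop
  /-- `-(K_Y + B)` is ample -/
  AntiAmple : Pair → Prop
  /-- `-(K_Y + B)` is nef and big -/
  AntiNefBig : Pair → Prop
  /-- **Extraction of divisors**: for a klt pair `(Y, B)`, `B ≥ 0`, and finitely many `P ∈ V` with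
  log discrepancy at most one there is a projective birational morphism `Y' → Y`, `Y'`
  `ℚ`-factorial, whose exceptional divisors are exactly those `P` of the list which are not prime
  divisors of `Y`; take on `Y'` the pull-back of `K_Y + B`. (Log resolution and relative minimal
  model program: Artin, Lipman, Tanaka 2014 in dimension at most two; Cossart and Piltant 2009,
  Hacon and Xu 2015, Birkar 2016 in dimension three, `p > 5`.) -/
  extract : Known c p → ∀ q, (∀ P, 0 < ld q P) → (∀ P ∈ divs q, ld q P ≤ 1) → AntiAmple q →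
    ∀ E : Set V, E.Finite → (∀ P ∈ E, ld q P ≤ 1) →
      ∃ y, QFact y ∧ divs y = divs q ∪ E ∧ (∀ P, ld y P = ld q P) ∧ AntiNefBig y
  /-- **Fano type varieties are Mori dream spaces**: if `(Y, B)` is klt, `B ≥ 0`, `Y` is
  `ℚ`-factorial and `-(K_Y + B)` is nef and big, then the multisection rings of all finite sets of
  integral Weil divisors of `Y` are finitely generated. (Cone and base point free theorem of
  Tanaka 2014 in dimension at most two; Birkar 2016 and Birkar and Waldron 2017, with their
  finiteness of minimal models, in dimension three, `p > 5`.) -/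
  dream : Known c p → ∀ y, QFact y → (∀ P, 0 < ld y P) → (∀ P ∈ divs y, ld y P ≤ 1) →
    AntiNefBig y → ν.FinGen (divs y)

/-- A smooth Fano variety `X` of dimension `n` in characteristic `p > 0` with an effective action of
a torus of rank `r` (`- K_X` with its canonical linearisation). -/
structure TorusFano (ν : Vals k F V) (n r p : ℕ) extends TVar ν r, Models ν (n - r) p where
  rank_le : r ≤ n
  trdeg : Algebra.trdeg k F = ((n - r : ℕ) : Cardinal)
  /-- the log discrepancy of the valuation `(P, v)` with respect to `X` -/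
  A : V → (Fin r → ℚ) → ℚ
  /-- the log discrepancy of the valuation `wt_w` with respect to `X` -/
  AT : (Fin r → ℤ) → ℚ
  /-- `X` is smooth (klt is enough) -/
  A_pos : ∀ P v, 0 < A P v
  AT_pos : ∀ w, w ≠ 0 → 0 < AT w
  /-- the normalised valuation of a prime divisor of `X` has log discrepancy one -/
  A_vtx : ∀ t, A (ov t) (vtx t) = 1 / (mu t : ℚ)
  /-- sections of `- m K_X` have order at least zero along every valuation: the order of
  `f χ^u ω^(-m)` along `(P, v)` is `ord_P f + ⟨u, v⟩ - m (kap P + 1) + m A(P, v)` -/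
  sec_ge : ∀ (m : ℕ) (u : Fin r → ℤ) (f : F), f ∈ toTVar.anti m u → ∀ P v (a : ℤ),
    ν.ord P f = (a : WithTop ℤ) → (m : ℚ) * (kap P + 1 - A P v) ≤ a + pr u v
  /-- `- K_X` is ample: for some `m > 0` finitely many semi-invariant sections generate `- m K_X`,
  so for every valuation one of them has order zero; the order along `wt_w` is
  `⟨u, w⟩ + m AT(w)` -/
  gen : ∃ (m s : ℕ) (u : Fin s → Fin r → ℤ) (f : Fin s → F), 0 < m ∧
    (∀ j, f j ≠ 0 ∧ f j ∈ toTVar.anti m (u j)) ∧
    (∀ P v, ∃ j, ∃ a : ℤ, ν.ord P (f j) = (a : WithTop ℤ) ∧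
      (a : ℚ) + pr (u j) v = (m : ℚ) * (kap P + 1 - A P v)) ∧
    ∀ w : Fin r → ℤ, w ≠ 0 → ∃ j, pr (u j) (fun i => (w i : ℚ)) = - ((m : ℚ) * AT w)
  /-- **Geometric invariant theory** (Mumford; tori are linearly reductive in every
  characteristic). If for every one-parameter subgroup `w ≠ 0` there is a semi-invariant section of
  some `- m K_X` whose weight is negative on `w`, then general points of `X` are stable
  (Hilbert and Mumford), the quotient `Q` of the semistable points is a normal projective variety
  with function field `F`, the sections of `O_Q(m)` are the invariant sections of `- m K_X`,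
  `O_Q(m)` is ample and generated for divisible `m`. Let `a_P` be the maximum of
  `kap P + 1 - ord_P f / m` over the invariant sections `f ω^(-m)`, and `B` the sum of
  `(1 - a_P) P` over the prime divisors of `Q`. Then `O_Q(m) = - m (K_Q + B)` for divisible `m`
  and `a_P` is the log discrepancy of `(Q, B)` along `P` for every `P ∈ V`. A component of
  the inverse image of a prime divisor `P` of `Q` dominates `P` and is a vertical divisor of `X`;
  all vertical divisors which meet the set of stable points dominate prime divisors of `Q`, and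
  only finitely many do not meet it. -/
  quotient : (∀ w : Fin r → ℤ, w ≠ 0 → ∃ (m : ℕ) (u : Fin r → ℤ) (f : F), 0 < m ∧ f ≠ 0 ∧
      f ∈ toTVar.anti m u ∧ pr u (fun i => (w i : ℚ)) < 0) →
    ∃ q : Pair, AntiAmple q ∧
      (∀ (m : ℕ) (f : F), f ∈ toTVar.anti m 0 → ∀ P (a : ℤ), ν.ord P f = (a : WithTop ℤ) →
        (m : ℚ) * (kap P + 1 - ld q P) ≤ a) ∧
      (∀ P, ∃ (m : ℕ) (f : F) (a : ℤ), 0 < m ∧ f ∈ toTVar.anti m 0 ∧
        ν.ord P f = (a : WithTop ℤ) ∧ (a : ℚ) = (m : ℚ) * (kap P + 1 - ld q P)) ∧
      (∀ P ∈ divs q, ∃ t, ov t = P) ∧ {t | ov t ∉ divs q}.Finite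
  /-- `X` is a Mori dream space -/
  MoriDream : Prop
  /-- **Hu and Keel (2000), Proposition 2.9**, valid in all characteristics; `Pic X` is finitely
  generated and `Pic(X)_ℚ = N^1(X)_ℚ` because `X` is rationally chain connected (Campana;
  Kollár, Miyaoka and Mori). Every divisor is linearly equivalent to an invariant one. -/
  hu_keel : (∀ (s : ℕ) (B : Fin s → (H ⊕ T) →₀ ℤ), (toTVar.coxFam B).alg.FG) → MoriDream

end Data

end Pool.TF
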