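import Mathlib

/-!
# Farkas' lemma over the rational numbers, by Fourier-Motzkin elimination
-/

namespace Pool.TF

open Finset

theorem exists_between {J : Type} [Fintype J] (L U : J → ℚ) (p q : J → Prop)
    (h : ∀ i j, p i → q j → L i ≤ U j) : ∃ x : ℚ, (∀ i, p i → L i ≤ x) ∧ ∀ j, q j → x ≤ U j := by
  classical
  by_cases h1 : ∃ i, p i
  · obtain ⟨i0, hi0⟩ := h1
    obtain ⟨i, hi, hmax⟩ := Finset.exists_max_image (Finset.univ.filter p) L ⟨i0, by simp [hi0]⟩
    have hpi : p i := (Finset.mem_filter.1 hi).2
    exact ⟨L i, fun j hj => hmax j (by simp [hj]), fun j hj => h i j hpi hj⟩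
  · by_cases h2 : ∃ j, q j
    · obtain ⟨j0, hj0⟩ := h2
      obtain ⟨j, hj, hmin⟩ := Finset.exists_min_image (Finset.univ.filter q) U ⟨j0, by simp [hj0]⟩
      exact ⟨U j, fun i hi => absurd ⟨i, hi⟩ h1, fun i hi => hmin i (by simp [hi])⟩
    · exact ⟨0, fun i hi => absurd ⟨i, hi⟩ h1, fun j hj => absurd ⟨j, hj⟩ h2⟩

/-- **Farkas' lemma**: either the system `b j ≤ ⟨w j, v⟩` is solvable, or a nonnegative combination
of the inequalities is contradictory. -/
theorem farkas : ∀ (r : ℕ) {J : Type} [Fintype J] (w : J → Fin r → ℚ) (b : J → ℚ),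
    (∃ v : Fin r → ℚ, ∀ j, b j ≤ ∑ i, w j i * v i) ∨
      ∃ c : J → ℚ, (∀ j, 0 ≤ c j) ∧ (∀ i, ∑ j, c j * w j i = 0) ∧ 0 < ∑ j, c j * b j := by
  classical
  intro r
  induction r with
  | zero =>
    intro J _ w b
    by_cases h : ∃ j, 0 < b j
    · obtain ⟨j, hj⟩ := h
      refine Or.inr ⟨fun i => if i = j then 1 else 0, fun i => ?_, fun i => i.elim0, ?_⟩
      · dsimp only; split_ifs <;> norm_num
      · simpa using hj
    · refine Or.inl ⟨fun i => i.elim0, fun j => ?_⟩
      push Not at h
      simpa using h j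
  | succ r ih =>
    intro J _ w b
    let c0 : J → ℚ := fun j => if w j 0 = 0 then 1 else 0
    let cp : J → J → ℚ := fun p q => if 0 < w p 0 ∧ w q 0 < 0 then -w q 0 else 0
    let cq : J → J → ℚ := fun p q => if 0 < w p 0 ∧ w q 0 < 0 then w p 0 else 0
    have hc0 : ∀ j, 0 ≤ c0 j := by intro j; dsimp only [c0]; split_ifs <;> norm_num
    have hcp : ∀ p q, 0 ≤ cp p q := by
      intro p q; dsimp only [cp]; split_ifs with h
      · linarith [h.2]
      · exact le_refl _
    have hcq : ∀ p q, 0 ≤ cq p q := by
      intro p q; dsimp only [cq]; split_ifs with h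
      · linarith [h.1]
      · exact le_refl _
    -- the new system
    let tr : (J → ℚ) → (J ⊕ (J × J)) → ℚ := fun φ x =>
      match x with
      | Sum.inl j => c0 j * φ j
      | Sum.inr x => cp x.1 x.2 * φ x.1 + cq x.1 x.2 * φ x.2
    rcases ih (J := J ⊕ (J × J)) (fun x i => tr (fun j => w j i.succ) x) (fun x => tr b x) with
      ⟨v, hv⟩ | ⟨c, hc1, hc2, hc3⟩
    · -- a solution of the new system extends
      left
      let s : J → ℚ := fun j => ∑ i : Fin r, w j i.succ * v i
      have hs : ∀ x, ∑ i, tr (fun j => w j i.succ) x * v i = tr s x := by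
        rintro (j | ⟨p, q⟩)
        · show ∑ i, c0 j * w j i.succ * v i = c0 j * ∑ i : Fin r, w j i.succ * v i
          rw [Finset.mul_sum]
          exact Finset.sum_congr rfl fun i _ => by ring
        · show ∑ i, (cp p q * w p i.succ + cq p q * w q i.succ) * v i
            = cp p q * (∑ i : Fin r, w p i.succ * v i) + cq p q * (∑ i : Fin r, w q i.succ * v i)
          rw [Finset.mul_sum, Finset.mul_sum, ← Finset.sum_add_distrib]
          exact Finset.sum_congr rfl fun i _ => by ring
      have hv' : ∀ x, tr b x ≤ tr s x := fun x => by rw [← hs]; exact hv x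
      obtain ⟨x, hx1, hx2⟩ := exists_between (fun j => (b j - s j) / w j 0)
        (fun j => (b j - s j) / w j 0) (fun j => 0 < w j 0) (fun j => w j 0 < 0) (by
          intro p q hp hq
          have h1 : cp p q * b p + cq p q * b q ≤ cp p q * s p + cq p q * s q :=
            hv' (Sum.inr (p, q))
          have h2 : cp p q = -w q 0 := by simp [cp, hp, hq]
          have h3 : cq p q = w p 0 := by simp [cq, hp, hq]
          rw [h2, h3] at h1
          have h4 : (0 : ℚ) < -w q 0 := by linarith
          have h5 : (b q - s q) / w q 0 = (s q - b q) / (-w q 0) := by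
            rw [div_neg, ← neg_div]; congr 1; ring
          rw [h5, div_le_div_iff₀ hp h4]
          linarith)
      refine ⟨Fin.cons x v, fun j => ?_⟩
      rw [Fin.sum_univ_succ]
      simp only [Fin.cons_zero, Fin.cons_succ]
      show b j ≤ w j 0 * x + s j
      rcases lt_trichotomy (w j 0) 0 with hj | hj | hj
      · have h1 := hx2 j hj
        rw [le_div_iff_of_neg hj] at h1
        linarith
      · have h1 : c0 j * b j ≤ c0 j * s j := hv' (Sum.inl j)
        have h2 : c0 j = 1 := by simp [c0, hj]
        rw [h2] at h1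
        rw [hj]; linarith
      · have h1 := hx1 j hj
        rw [div_le_iff₀ hj] at h1
        linarith
    · -- a contradiction in the new system is one in the old
      right
      let d : J → ℚ := fun j => c (Sum.inl j) * c0 j + (∑ q, c (Sum.inr (j, q)) * cp j q
        + ∑ p, c (Sum.inr (p, j)) * cq p j)
      have hd : ∀ φ : J → ℚ, ∑ j, d j * φ j = ∑ x, c x * tr φ x := by
        intro φ
        rw [Fintype.sum_sum_type, Fintype.sum_prod_type]
        have h1 : ∑ j, d j * φ j = ∑ j, c (Sum.inl j) * (c0 j * φ j)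
            + (∑ j, ∑ q, c (Sum.inr (j, q)) * (cp j q * φ j)
              + ∑ j, ∑ p, c (Sum.inr (p, j)) * (cq p j * φ j)) := by
          rw [← Finset.sum_add_distrib, ← Finset.sum_add_distrib]
          refine Finset.sum_congr rfl fun j _ => ?_
          show (c (Sum.inl j) * c0 j + (∑ q, c (Sum.inr (j, q)) * cp j q
            + ∑ p, c (Sum.inr (p, j)) * cq p j)) * φ j = _
          rw [add_mul, add_mul, Finset.sum_mul, Finset.sum_mul]
          congr 1
          · ring
          · congr 1
            · exact Finset.sum_congr rfl fun i _ => by ring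
            · exact Finset.sum_congr rfl fun i _ => by ring
        rw [h1, Finset.sum_comm (f := fun j p => c (Sum.inr (p, j)) * (cq p j * φ j)),
          ← Finset.sum_add_distrib]
        congr 1
        refine Finset.sum_congr rfl fun p _ => ?_
        rw [← Finset.sum_add_distrib]
        refine Finset.sum_congr rfl fun q _ => ?_
        show _ = c (Sum.inr (p, q)) * (cp p q * φ p + cq p q * φ q)
        ring
      refine ⟨d, fun j => ?_, fun i => ?_, ?_⟩
      · exact add_nonneg (mul_nonneg (hc1 _) (hc0 _)) (add_nonneg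
          (Finset.sum_nonneg fun q _ => mul_nonneg (hc1 _) (hcp _ _))
          (Finset.sum_nonneg fun q _ => mul_nonneg (hc1 _) (hcq _ _)))
      · refine Fin.cases ?_ (fun i => ?_) i
        · rw [hd (fun j => w j 0)]
          refine Finset.sum_eq_zero fun x _ => ?_
          rcases x with j | ⟨p, q⟩
          · show c (Sum.inl j) * (c0 j * w j 0) = 0
            by_cases hj : w j 0 = 0
            · rw [hj]; ring
            · simp [c0, hj]
          · show c (Sum.inr (p, q)) * (cp p q * w p 0 + cq p q * w q 0) = 0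
            by_cases hpq : 0 < w p 0 ∧ w q 0 < 0
            · simp only [cp, cq, hpq, and_self, if_true]; ring
            · simp [cp, cq, hpq]
        · rw [hd (fun j => w j i.succ)]; exact hc2 i
      · rw [hd b]; exact hc3

/-- The same with natural number coefficients in the second case. -/
theorem farkas_nat (r : ℕ) {J : Type} [Fintype J] (w : J → Fin r → ℚ) (b : J → ℚ) :
    (∃ v : Fin r → ℚ, ∀ j, b j ≤ ∑ i, w j i * v i) ∨
      ∃ c : J → ℕ, (∀ i, ∑ j, (c j : ℚ) * w j i = 0) ∧ 0 < ∑ j, (c j : ℚ) * b j := by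
  classical
  rcases farkas r w b with h | ⟨c, hc1, hc2, hc3⟩
  · exact Or.inl h
  · right
    -- common denominator
    let N : ℕ := ∏ j, (c j).den
    have hN : 0 < N := Finset.prod_pos fun j _ => (c j).den_pos
    have key : ∀ j, ∃ z : ℕ, (z : ℚ) = N * c j := by
      intro j
      refine ⟨(∏ i ∈ Finset.univ.erase j, (c i).den) * (c j).num.toNat, ?_⟩
      have h1 : (c j).den * (∏ i ∈ Finset.univ.erase j, (c i).den) = N :=
        Finset.mul_prod_erase _ (fun i => (c i).den) (Finset.mem_univ j)
      have h2 : (((c j).num.toNat : ℕ) : ℚ) = (c j).den * c j := by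
        rw [mul_comm, Rat.mul_den_eq_num]
        have h3 : (((c j).num.toNat : ℕ) : ℤ) = (c j).num :=
          Int.toNat_of_nonneg (Rat.num_nonneg.2 (hc1 j))
        exact_mod_cast h3
      have h3 : (N : ℚ) = ((c j).den : ℚ) * ((∏ i ∈ Finset.univ.erase j, (c i).den : ℕ) : ℚ) := by
        rw [← Nat.cast_mul, h1]
      rw [Nat.cast_mul, h2, h3]
      ring
    choose z hz using key
    have hz' : ∀ φ : J → ℚ, ∑ j, (z j : ℚ) * φ j = N * ∑ j, c j * φ j := by
      intro φ
      rw [Finset.mul_sum]
      exact Finset.sum_congr rfl fun j _ => by rw [hz]; ring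
    refine ⟨z, fun i => ?_, ?_⟩
    · rw [hz' (fun j => w j i), hc2, mul_zero]
    · rw [hz' b]
      exact mul_pos (by exact_mod_cast hN) hc3

end Pool.TF
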