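import Pool.Agent.Work.MP_d0224f_ag.Sections
import Pool.Agent.Work.MP_d0224f_ag.Farkas

/-!
# Proof
-/

namespace Pool.TF

open Finset

variable {k F V : Type} [Field k] [Field F] [Algebra k F] {ν : Vals k F V} {n r p : ℕ}

theorem pr_add_left {r : ℕ} (u u' : Fin r → ℤ) (v : Fin r → ℚ) :
    pr (u + u') v = pr u v + pr u' v := by
  simp only [pr, Pi.add_apply]
  rw [← Finset.sum_add_distrib]
  exact Finset.sum_congr rfl fun i _ => by push_cast; ring

theorem pr_zero_left {r : ℕ} (v : Fin r → ℚ) : pr (0 : Fin r → ℤ) v = 0 := by simp [pr]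

/-- Products of powers of sections of `- m K_X`. -/
theorem TVar.anti_prod (X : TVar ν r) {m s : ℕ} {u : Fin s → Fin r → ℤ} {f : Fin s → F}
    (hf : ∀ j, f j ∈ X.anti m (u j)) (c : Fin s → ℕ) (S : Finset (Fin s)) :
    ∏ j ∈ S, f j ^ c j ∈ X.anti (m * ∑ j ∈ S, c j) (∑ j ∈ S, c j • u j) := by
  classical
  have hone : (1 : F) ∈ X.anti 0 0 := by
    refine ν.one_mem_cond _ (fun ρ => ?_) (fun t => ?_) <;> simp [pr]
  have hmul : ∀ {a b : ℕ} {u u' : Fin r → ℤ} {g h : F}, g ∈ X.anti a u → h ∈ X.anti b u' →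
      g * h ∈ X.anti (a + b) (u + u') := by
    intro a b u u' g h hg hh
    refine X.H0_mul (fun E => ?_) hg hh
    push_cast; ring
  have hpow : ∀ j (e : ℕ), f j ^ e ∈ X.anti (m * e) (e • u j) := by
    intro j e
    induction e with
    | zero => simpa using hone
    | succ e ih =>
      rw [pow_succ, mul_add, mul_one, add_smul, one_smul]
      exact hmul ih (hf j)
  induction S using Finset.induction_on with
  | empty => simpa using hone
  | insert a S ha ih =>
    rw [Finset.prod_insert ha, Finset.sum_insert ha, Finset.sum_insert ha, mul_add]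
    exact hmul (hpow a _) ih

theorem Vals.ord_int (ν : Vals k F V) (P : V) {f : F} (hf : f ≠ 0) :
    ∃ a : ℤ, ν.ord P f = (a : WithTop ℤ) := by
  have h : ν.ord P f ≠ ⊤ := fun h => hf ((ν.ord P).top_iff.1 h)
  obtain ⟨a, ha⟩ := WithTop.ne_top_iff_exists.1 h
  exact ⟨a, ha.symm⟩

theorem Vals.ord_prod (ν : Vals k F V) (P : V) {s : ℕ} {f : Fin s → F} {a : Fin s → ℤ}
    (hf : ∀ j, ν.ord P (f j) = (a j : WithTop ℤ)) (c : Fin s → ℕ) (S : Finset (Fin s)) :
    ν.ord P (∏ j ∈ S, f j ^ c j) = ((∑ j ∈ S, (c j : ℤ) * a j : ℤ) : WithTop ℤ) := by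
  classical
  have hpow : ∀ j (e : ℕ), ν.ord P (f j ^ e) = (((e : ℤ) * a j : ℤ) : WithTop ℤ) := by
    intro j e
    induction e with
    | zero => simp
    | succ e ih =>
      rw [pow_succ, (ν.ord P).map_mul, ih, hf j, ← WithTop.coe_add]
      congr 1
      push_cast; ring
  induction S using Finset.induction_on with
  | empty => simp
  | insert b S hb ih =>
    rw [Finset.prod_insert hb, Finset.sum_insert hb, (ν.ord P).map_mul, ih, hpow,
      ← WithTop.coe_add]

namespace TorusFano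

variable (X : TorusFano ν n r p)

/-- **The quotient pair.** There is a klt pair `(Q, B)` with `- (K_Q + B)` ample, whose prime
divisors lie under vertical divisors of `X`, such that the log discrepancy of `(Q, B)` at `ov t` is
at most `1 / mu t` for every vertical divisor `t` of `X`. -/
theorem exists_quotient : ∃ q : X.Pair, X.AntiAmple q ∧ (∀ P, 0 < X.ld q P) ∧
    (∀ t, X.ld q (X.ov t) ≤ 1 / (X.mu t : ℚ)) ∧ (∀ P ∈ X.divs q, ∃ t, X.ov t = P) ∧
    {t | X.ov t ∉ X.divs q}.Finite := by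
  classical
  obtain ⟨m, s, u, f, hm, hf, hgen, hgenT⟩ := X.gen
  have hmq : (0 : ℚ) < m := by exact_mod_cast hm
  -- stability of general points
  obtain ⟨q, hq, hge, hex, hdiv, hfin⟩ := X.quotient (by
    intro w hw
    obtain ⟨j, hj⟩ := hgenT w hw
    refine ⟨m, u j, f j, hm, (hf j).1, (hf j).2, ?_⟩
    rw [hj]
    have := mul_pos hmq (X.AT_pos w hw)
    linarith)
  refine ⟨q, hq, fun P => ?_, fun t => ?_, hdiv, hfin⟩
  · -- klt: linear programming duality
    choose a ha using fun j => ν.ord_int P (hf j).1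
    rcases farkas_nat r (fun j i => (u j i : ℚ))
      (fun j => (m : ℚ) * (X.kap P + 1 - X.ld q P) - a j) with ⟨v, hv⟩ | ⟨c, hc1, hc2⟩
    · obtain ⟨j, b, hb, hbe⟩ := hgen P v
      have h1 := hv j
      have h2 : a j = b := by
        have : ((a j : ℤ) : WithTop ℤ) = (b : WithTop ℤ) := (ha j).symm.trans hb
        exact_mod_cast this
      have h3 : (m : ℚ) * (X.kap P + 1 - X.ld q P) ≤ m * (X.kap P + 1 - X.A P v) := by
        rw [← hbe, ← h2]
        simp only [pr]
        linarith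
      have h4 : X.A P v ≤ X.ld q P := by
        have := le_of_mul_le_mul_left h3 hmq
        linarith
      exact lt_of_lt_of_le (X.A_pos P v) h4
    · exfalso
      have hs := X.toTVar.anti_prod (fun j => (hf j).2) c Finset.univ
      have hu : ∑ j, c j • u j = 0 := by
        funext i
        have h1 := hc1 i
        have h2 : ((∑ j, (c j : ℤ) * u j i : ℤ) : ℚ) = 0 := by push_cast; exact h1
        have h3 : ∑ j, (c j : ℤ) * u j i = 0 := by exact_mod_cast h2
        rw [Finset.sum_apply]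
        simpa using h3
      rw [hu] at hs
      have ho := ν.ord_prod P ha c Finset.univ
      have h1 := hge _ _ hs P _ ho
      push_cast at h1
      have h2 : ∑ j, (c j : ℚ) * ((m : ℚ) * (X.kap P + 1 - X.ld q P) - a j)
          = (m : ℚ) * (∑ j, (c j : ℚ)) * (X.kap P + 1 - X.ld q P) - ∑ j, (c j : ℚ) * a j := by
        rw [Finset.mul_sum, Finset.sum_mul, ← Finset.sum_sub_distrib]
        exact Finset.sum_congr rfl fun j _ => by ring
      rw [h2] at hc2
      linarith
  · -- the bound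
    obtain ⟨m', g, b, hm', hg, hb, hbe⟩ := hex (X.ov t)
    have h1 := X.sec_ge m' 0 g hg (X.ov t) (X.vtx t) b hb
    rw [pr_zero_left, add_zero, hbe, X.A_vtx] at h1
    have hm'q : (0 : ℚ) < m' := by exact_mod_cast hm'
    have := le_of_mul_le_mul_left h1 hm'q
    linarith

/-- **The quotient with the divisors seen by `X` is of Fano type.** -/
theorem exists_fano_type (h : Known (n - r) p) : ∃ y : X.Pair, X.QFact y ∧
    (∀ P, 0 < X.ld y P) ∧ (∀ P ∈ X.divs y, X.ld y P ≤ 1) ∧ X.AntiNefBig y ∧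
    X.divs y = Set.range X.ov := by
  classical
  obtain ⟨q, hq, hklt, hle, hdiv, hfin⟩ := X.exists_quotient
  have hle1 : ∀ t, X.ld q (X.ov t) ≤ 1 := by
    intro t
    refine (hle t).trans ?_
    have h1 : (1 : ℚ) ≤ X.mu t := by exact_mod_cast X.mu_pos t
    rw [div_le_one (by linarith)]
    exact h1
  have heff : ∀ P ∈ X.divs q, X.ld q P ≤ 1 := by
    intro P hP
    obtain ⟨t, rfl⟩ := hdiv P hP
    exact hle1 t
  obtain ⟨y, hy1, hy2, hy3, hy4⟩ := X.extract h q hklt heff hq (X.ov '' {t | X.ov t ∉ X.divs q})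
    (hfin.image _) (by rintro P ⟨t, -, rfl⟩; exact hle1 t)
  have hrange : X.divs y = Set.range X.ov := by
    rw [hy2]
    apply Set.Subset.antisymm
    · rintro P (hP | ⟨t, -, rfl⟩)
      · obtain ⟨t, rfl⟩ := hdiv P hP
        exact ⟨t, rfl⟩
      · exact ⟨t, rfl⟩
    · rintro P ⟨t, rfl⟩
      by_cases ht : X.ov t ∈ X.divs q
      · exact Or.inl ht
      · exact Or.inr ⟨t, ht, rfl⟩
  refine ⟨y, hy1, fun P => by rw [hy3]; exact hklt P, fun P hP => ?_, hy4, hrange⟩
  rw [hy3]
  rw [hrange] at hP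
  obtain ⟨t, rfl⟩ := hP
  exact hle1 t

/-- **The multisection rings of `X` are finitely generated.** -/
theorem cox_fg (h : Known (n - r) p) {s : ℕ} (B : Fin s → (X.H ⊕ X.T) →₀ ℤ) :
    (X.toTVar.coxFam B).alg.FG := by
  classical
  obtain ⟨y, hy1, hy2, hy3, hy4, hy5⟩ := X.exists_fano_type h
  have hfg : ν.FinGen (Set.range X.ov) := hy5 ▸ X.dream h y hy1 hy2 hy3 hy4
  have := X.finite_H
  -- the functionals
  let pM : (Fin r → ℚ) → (((Fin s → ℤ) × (Fin r → ℤ)) →+ ℚ) := fun v =>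
    { toFun := fun w => pr w.2 v
      map_zero' := by simp [pr]
      map_add' := by intro a b; exact pr_add_left _ _ _ }
  let pD : (X.H ⊕ X.T) → (((Fin s → ℤ) × (Fin r → ℤ)) →+ ℚ) := fun E =>
    { toFun := fun w => ∑ i, (w.1 i : ℚ) * (B i E : ℚ)
      map_zero' := by simp
      map_add' := by
        intro a b
        rw [← Finset.sum_add_distrib]
        exact Finset.sum_congr rfl fun i _ => by simp; ring }
  let hh : X.H → (((Fin s → ℤ) × (Fin r → ℤ)) →+ ℚ) := fun ρ =>
    pM (fun i => (X.ray ρ i : ℚ)) + pD (Sum.inl ρ)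
  let ll : X.T → (((Fin s → ℤ) × (Fin r → ℤ)) →+ ℚ) := fun t =>
    pM (X.vtx t) + (AddMonoidHom.mulLeft ((X.mu t : ℚ)⁻¹)).comp (pD (Sum.inr t))
  have key := pl_fg ν X.ov hh ll (by
    refine ((X.almost).union (Set.finite_iUnion fun i : Fin s =>
      ((B i).support.finite_toSet).preimage (f := (Sum.inr : X.T → X.H ⊕ X.T))
        (Sum.inr_injective.injOn))).subset ?_
    intro t ht
    by_contra hc
    rw [Set.mem_union, not_or] at hc
    obtain ⟨h1, h2⟩ := hc
    simp only [Set.mem_ofPred_eq, not_not] at h1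
    apply ht
    refine ⟨?_, h1.2⟩
    ext w
    have h3 : ∀ i, B i (Sum.inr t) = 0 := by
      intro i
      by_contra hne
      exact h2 (Set.mem_iUnion.2 ⟨i, by simpa using hne⟩)
    show pr w.2 (X.vtx t) + ((X.mu t : ℚ)⁻¹) * (∑ i, (w.1 i : ℚ) * (B i (Sum.inr t) : ℚ)) = 0
    rw [h1.1]
    simp [h3, pr]) hfg
  have heq : (X.toTVar.coxFam B).alg = (ν.plFam X.ov hh ll).alg := by
    have hG : ∀ w, (X.toTVar.coxFam B).G w = (ν.plFam X.ov hh ll).G w := by
      intro w
      show ν.cond X.ov _ _ = ν.cond X.ov _ _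
      congr 1
      · apply propext
        refine forall_congr' fun ρ => ?_
        show (0 ≤ pr w.2 (fun i => (X.ray ρ i : ℚ)) + ((∑ i, w.1 i * B i (Sum.inl ρ) : ℤ) : ℚ))
          ↔ (0 ≤ pr w.2 (fun i => (X.ray ρ i : ℚ)) + ∑ i, (w.1 i : ℚ) * (B i (Sum.inl ρ) : ℚ))
        push_cast
        exact Iff.rfl
      · funext t
        show pr w.2 (X.vtx t) + ((∑ i, w.1 i * B i (Sum.inr t) : ℤ) : ℚ) / (X.mu t : ℚ)
          = pr w.2 (X.vtx t) + ((X.mu t : ℚ)⁻¹) * ∑ i, (w.1 i : ℚ) * (B i (Sum.inr t) : ℚ)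
        push_cast
        rw [div_eq_mul_inv, mul_comm]
    ext x
    show (∀ w, x.coeff w ∈ (X.toTVar.coxFam B).G w) ↔ (∀ w, x.coeff w ∈ (ν.plFam X.ov hh ll).G w)
    simp only [hG]
  rw [heq]
  exact key

end TorusFano

end Pool.TF
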