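import Pool.Agent.Work.MP_d0224f_ag.Algebra

/-!
# Finite generation of piecewise linear section rings
-/

namespace Pool.TF

open Finset

section Sections

variable {k F V T : Type} [Field k] [Field F] [Algebra k F]

/-- The piecewise linear family on a group `W`: the functions `f` with
`ord_(ov t) (f) + l t w ≥ 0` for all `t`, and only `0` if `h e w < 0` for some `e`. -/
def Vals.plFam (ν : Vals k F V) {E W : Type} [AddCommGroup W] (ov : T → V)
    (h : E → (W →+ ℚ)) (l : T → (W →+ ℚ)) : Fam k F W where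
  G w := ν.cond ov (∀ e, 0 ≤ h e w) (fun t => l t w)
  one := ν.one_mem_cond _ (by intro e; simp) (by intro t; simp)
  mul := by
    intro a b f g hf hg
    refine ν.cond_mul _ (fun h1 h2 e => ?_) (fun t => ?_) hf hg
    · rw [map_add]; exact add_nonneg (h1 e) (h2 e)
    · rw [map_add]

end Sections

section PL

variable {k F V T : Type} [Field k] [Field F] [Algebra k F]

/-- **Finite generation of piecewise linear section rings.** -/
theorem pl_fg (ν : Vals k F V) {E W : Type} [Finite E] [AddCommGroup W] [Module.Finite ℤ W]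
    (ov : T → V) (h : E → (W →+ ℚ)) (l : T → (W →+ ℚ))
    (hfin : {t | ¬ (l t = 0 ∧ ∀ t', ov t' = ov t → t' = t)}.Finite)
    (hS : ν.FinGen (Set.range ov)) : (ν.plFam ov h l).alg.FG := by
  classical
  obtain ⟨B, hB⟩ := hfin.exists_finset_coe
  have hgood : ∀ t, t ∉ B → l t = 0 ∧ ∀ t', ov t' = ov t → t' = t := by
    intro t ht
    by_contra hc
    exact ht (by rw [← Finset.mem_coe, hB]; exact hc)
  -- the special prime divisors
  let Λ : Finset V := B.image ov
  have hΛ : ∀ t, ov t ∈ Λ → t ∈ B := by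
    intro t ht
    obtain ⟨t', ht', he⟩ := Finset.mem_image.1 ht
    by_contra hc
    have := (hgood t hc).2 t' he
    exact hc (this ▸ ht')
  -- choice functions
  let J : Type := {j : Λ → B // ∀ P : Λ, ov (j P : T) = (P : V)}
  have hJfin : Finite J := inferInstance
  -- the divisor attached to a choice function
  let Dv : J → W → V → ℚ := fun j w P => if hP : P ∈ Λ then l (j.1 ⟨P, hP⟩ : T) w else 0
  -- the functionals cutting out the cell
  let hc : (j : J) → (E ⊕ B) → (W →+ ℚ) := fun j x =>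
    match x with
    | Sum.inl e => h e
    | Sum.inr t => l (t : T) - l (j.1 ⟨ov t, Finset.mem_image_of_mem _ t.2⟩ : T)
  choose s w hw1 hw2 using fun j : J => gordan (hc j)
  -- common denominators
  have hden : ∀ j : J, ∃ N : ℕ, 0 < N ∧ ∃ D : Fin (s j) → V → ℤ,
      (∀ i P, (D i P : ℚ) = N * Dv j (w j i) P) ∧ ∀ i P, P ∉ Λ → D i P = 0 := by
    intro j
    obtain ⟨N, hN, hz⟩ := exists_den ((Finset.univ : Finset (Fin (s j))) ×ˢ Λ)
      (fun x => Dv j (w j x.1) x.2)
    have : ∀ (i : Fin (s j)) (P : V), ∃ z : ℤ, (z : ℚ) = N * Dv j (w j i) P ∧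
        (P ∉ Λ → z = 0) := by
      intro i P
      by_cases hP : P ∈ Λ
      · obtain ⟨z, hz⟩ := hz (i, P) (by simp [hP])
        exact ⟨z, hz, fun h => absurd hP h⟩
      · refine ⟨0, ?_, fun _ => rfl⟩
        simp [Dv, hP]
    choose D hD1 hD2 using this
    exact ⟨N, hN, D, hD1, hD2⟩
  choose N hN D hD1 hD2 using hden
  -- the round downs
  let G : (j : J) → (Fin (s j) → Fin (N j)) → V → ℤ := fun j r P =>
    ⌊∑ i, ((r i : ℕ) : ℚ) * Dv j (w j i) P⌋
  have hG : ∀ j r P, P ∉ Λ → G j r P = 0 := by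
    intro j r P hP
    simp [G, Dv, hP]
  -- additivity of the divisor
  have hDv : ∀ (j : J) (a : Fin (s j) → ℕ) (P : V),
      Dv j (∑ i, a i • w j i) P = ∑ i, (a i : ℚ) * Dv j (w j i) P := by
    intro j a P
    by_cases hP : P ∈ Λ
    · simp [Dv, hP, map_sum]
    · simp [Dv, hP]
  -- on the cell of `j` the divisor is at most every `l t`
  have hcell : ∀ (j : J) (v : W), (∀ e, 0 ≤ hc j e v) → ∀ t, Dv j v (ov t) ≤ l t v := by
    intro j v hv t
    by_cases hP : ov t ∈ Λ
    · have ht := hΛ t hP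
      have h1 := hv (Sum.inr ⟨t, ht⟩)
      have h2 : Dv j v (ov t) = l (j.1 ⟨ov t, hP⟩ : T) v := by simp [Dv, hP]
      have h3 : hc j (Sum.inr ⟨t, ht⟩) v = l t v - l (j.1 ⟨ov t, hP⟩ : T) v := rfl
      rw [h2]; rw [h3] at h1; linarith
    · have ht : t ∉ B := fun hb => hP (Finset.mem_image_of_mem _ hb)
      have h2 : Dv j v (ov t) = 0 := by simp [Dv, hP]
      rw [h2, (hgood t ht).1]; exact le_refl _
  -- the covering
  refine (ν.plFam ov h l).fg_of_cover (I := Σ j : J, (Fin (s j) → Fin (N j)))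
    (fun i => Fin (s i.1 + 1) → ℕ)
    (fun i => ν.secFam (Set.range ov) (Fin.cons (G i.1 i.2) (D i.1)))
    (fun i => { toFun := fun x => ∑ t : Fin (s i.1),
                  (x 0 * (i.2 t : ℕ) + N i.1 * x t.succ) • w i.1 t
                map_zero' := by simp
                map_add' := by
                  intro x y
                  rw [← Finset.sum_add_distrib]
                  refine Finset.sum_congr rfl fun t _ => ?_
                  rw [← add_smul]
                  congr 1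
                  simp only [Pi.add_apply]
                  ring }) ?_ ?_ ?_
  · -- the images are contained
    rintro ⟨j, r⟩ x f hf
    have hf2 : ∀ t (n : ℤ), ν.ord (ov t) f = (n : WithTop ℤ) →
        0 ≤ (n : ℚ) + ∑ i : Fin (s j + 1), (x i : ℚ) *
          (((Fin.cons (G j r) (D j) : Fin (s j + 1) → V → ℤ) i (ov t) : ℤ) : ℚ) :=
      fun t n hn => hf.2 ⟨ov t, t, rfl⟩ n hn
    show f ∈ ν.cond ov (∀ e, 0 ≤ h e (∑ t : Fin (s j),
        (x 0 * (r t : ℕ) + N j * x t.succ) • w j t))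
      (fun u => l u (∑ t : Fin (s j), (x 0 * (r t : ℕ) + N j * x t.succ) • w j t))
    have hcl : ∀ e, 0 ≤ hc j e (∑ t : Fin (s j), (x 0 * (r t : ℕ) + N j * x t.succ) • w j t) := by
      intro e
      rw [map_sum]
      refine Finset.sum_nonneg fun i _ => ?_
      rw [map_nsmul]
      exact nsmul_nonneg (hw1 j e i) _
    refine ⟨fun _ e => hcl (Sum.inl e), fun t n hn => ?_⟩
    have h1 := hf2 t n hn
    have h2 := hcell j _ hcl t
    rw [hDv] at h2
    refine le_trans h1 ?_
    have h3 : ∑ i : Fin (s j + 1), (x i : ℚ) *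
          (((Fin.cons (G j r) (D j) : Fin (s j + 1) → V → ℤ) i (ov t) : ℤ) : ℚ)
        ≤ ∑ i, ((x 0 * (r i : ℕ) + N j * x i.succ : ℕ) : ℚ) * Dv j (w j i) (ov t) := by
      rw [Fin.sum_univ_succ]
      simp only [Fin.cons_zero, Fin.cons_succ]
      have h4 : ((G j r (ov t) : ℤ) : ℚ) ≤ ∑ i, ((r i : ℕ) : ℚ) * Dv j (w j i) (ov t) :=
        Int.floor_le _
      have h5 : (x 0 : ℚ) * ((G j r (ov t) : ℤ) : ℚ)
          ≤ (x 0 : ℚ) * ∑ i, ((r i : ℕ) : ℚ) * Dv j (w j i) (ov t) :=
        mul_le_mul_of_nonneg_left h4 (Nat.cast_nonneg _)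
      have h6 : ∑ i, ((x 0 * (r i : ℕ) + N j * x i.succ : ℕ) : ℚ) * Dv j (w j i) (ov t)
          = (x 0 : ℚ) * ∑ i, ((r i : ℕ) : ℚ) * Dv j (w j i) (ov t)
            + ∑ i : Fin (s j), (x i.succ : ℚ) * ((D j i (ov t) : ℤ) : ℚ) := by
        rw [Finset.mul_sum, ← Finset.sum_add_distrib]
        refine Finset.sum_congr rfl fun i _ => ?_
        rw [hD1]; push_cast; ring
      rw [h6]
      linarith
    linarith
  · -- everything is covered
    intro v f hf hne
    have hf1 : ∀ e, 0 ≤ h e v := hf.1 hne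
    have hf2 : ∀ t (n : ℤ), ν.ord (ov t) f = (n : WithTop ℤ) → 0 ≤ (n : ℚ) + l t v := hf.2
    -- the choice function
    have hch : ∀ P : Λ, ∃ b : B, ov (b : T) = (P : V) ∧
        ∀ b' : B, ov (b' : T) = (P : V) → l (b : T) v ≤ l (b' : T) v := by
      intro P
      obtain ⟨t, ht, htP⟩ := Finset.mem_image.1 P.2
      obtain ⟨b, hb, hmin⟩ := Finset.exists_min_image
        (Finset.univ.filter fun b : B => ov (b : T) = (P : V)) (fun b => l (b : T) v)
        ⟨⟨t, ht⟩, by simp [htP]⟩
      refine ⟨b, (Finset.mem_filter.1 hb).2, fun b' hb' => hmin b' ?_⟩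
      simp [hb']
    choose jf hj1 hj2 using hch
    let j : J := ⟨jf, hj1⟩
    have hcl : ∀ e, 0 ≤ hc j e v := by
      rintro (e | t)
      · exact hf1 e
      · have h1 := hj2 ⟨ov t, Finset.mem_image_of_mem _ t.2⟩ t rfl
        show 0 ≤ l (t : T) v - l (jf ⟨ov t, Finset.mem_image_of_mem _ t.2⟩ : T) v
        linarith
    obtain ⟨a, ha⟩ := hw2 j v hcl
    obtain ⟨r, b, hab⟩ : ∃ (r : Fin (s j) → Fin (N j)) (b : Fin (s j) → ℕ),
        ∀ i, a i = (r i : ℕ) + N j * b i :=
      ⟨fun i => ⟨a i % N j, Nat.mod_lt _ (hN j)⟩, fun i => a i / N j,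
        fun i => (Nat.mod_add_div (a i) (N j)).symm⟩
    refine ⟨⟨j, r⟩, (Fin.cons 1 b : Fin (s j + 1) → ℕ), ?_, ?_⟩
    · show ∑ t : Fin (s j), ((Fin.cons 1 b : Fin (s j + 1) → ℕ) 0
          * (r t : ℕ) + N j * (Fin.cons 1 b : Fin (s j + 1) → ℕ) t.succ) • w j t = v
      rw [ha]
      refine Finset.sum_congr rfl fun t _ => ?_
      simp only [Fin.cons_zero, Fin.cons_succ, one_mul]
      rw [← hab]
    · show f ∈ ν.cond (fun P : Set.range ov => (P : V)) True _
      refine ⟨fun _ => trivial, ?_⟩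
      rintro ⟨P, t, rfl⟩ n hn
      have h0 : 0 ≤ (n : ℚ) + Dv j v (ov t) := by
        by_cases hP : ov t ∈ Λ
        · have h2 : Dv j v (ov t) = l (jf ⟨ov t, hP⟩ : T) v := by simp [Dv, hP, j]
          rw [h2]
          apply hf2
          rw [hj1 ⟨ov t, hP⟩]
          exact hn
        · have ht : t ∉ B := fun hb => hP (Finset.mem_image_of_mem _ hb)
          have h2 : Dv j v (ov t) = 0 := by simp [Dv, hP]
          have h3 := hf2 t n hn
          rw [(hgood t ht).1] at h3
          rw [h2]; exact h3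
      rw [ha, hDv] at h0
      show 0 ≤ (n : ℚ) + ∑ i : Fin (s j + 1),
        (((Fin.cons 1 b : Fin (s j + 1) → ℕ) i : ℕ) : ℚ) *
          (((Fin.cons (G j r) (D j) : Fin (s j + 1) → V → ℤ) i (ov t) : ℤ) : ℚ)
      rw [Fin.sum_univ_succ]
      simp only [Fin.cons_zero, Fin.cons_succ, Nat.cast_one, one_mul]
      have h5 : ∑ i : Fin (s j), (a i : ℚ) * Dv j (w j i) (ov t)
          = ∑ i : Fin (s j), ((r i : ℕ) : ℚ) * Dv j (w j i) (ov t)
            + ∑ i : Fin (s j), (b i : ℚ) * (D j i (ov t) : ℚ) := by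
        rw [← Finset.sum_add_distrib]
        refine Finset.sum_congr rfl fun i _ => ?_
        rw [hD1, hab]
        push_cast
        ring
      rw [h5] at h0
      have h4 : -n - ∑ i : Fin (s j), (b i : ℤ) * D j i (ov t) ≤ G j r (ov t) := by
        refine Int.le_floor.2 ?_
        push_cast
        linarith
      have h7 : (0 : ℤ) ≤ n + (G j r (ov t) + ∑ i : Fin (s j), (b i : ℤ) * D j i (ov t)) := by
        linarith
      exact_mod_cast h7
  · rintro ⟨j, r⟩
    refine hS _ _ fun i => ?_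
    refine (Λ.finite_toSet).subset ?_
    rintro P ⟨-, hP⟩
    by_contra hc
    apply hP
    refine Fin.cases ?_ (fun i' => ?_) i
    · exact hG j r P hc
    · exact hD2 j i' P hc

end PL

end Pool.TF
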